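import Pool.Agent.W263.EP.Ab
import Pool.Agent.W263.BSD.Curve

/-!
# The leading value `L*(A)` of an abelian variety and the numbers of points `#A(𝔽_p)`

`A` is an abelian variety of dimension `d` over `ℚ` and `S` is a finite set of primes which contains
the primes of bad reduction.  By Weil's theorem `P_p(T) = ∏_{j ≤ d} (1 - a_{p,j} T + p T²)` with real
numbers `|a_{p,j}| ≤ 2√p` for every prime `p ∉ S` (`a_{p,j} = α + ᾱ` for the pairs of conjugate
eigenvalues of Frobenius).  So `#A(𝔽_p) = P_p(1) = ∏_j (p + 1 - a_{p,j})`,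
`L(A, s) = ∏_{p ∉ S} ∏_j (1 - a_{p,j} p^{-s} + p^{1-2s})⁻¹`, and the Birch and Swinnerton-Dyer
product is `P(x) = ∏_{p ≤ x, p ∉ S} #A(𝔽_p) / p^d`.  The theorem uses nothing else about `A`.
-/

set_option autoImplicit false

namespace Pool.Agent.Results.MP_dfae13_nt.LeadingValue

open Filter Topology

variable {d : ℕ}

/-- The Weil bound for the numbers `a_{p,j}`, `p ∉ S`. -/
def WeilBound (a : Nat.Primes → Fin d → ℝ) (S : Finset Nat.Primes) : Prop :=
  ∀ p, p ∉ S → ∀ j, |a p j| ≤ 2 * √((p : ℕ) : ℝ)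

open Classical in
/-- `L(A, s) = ∏_{p ∉ S} P_p(p^{-s})⁻¹`. -/
noncomputable def LFun (a : Nat.Primes → Fin d → ℝ) (S : Finset Nat.Primes) (s : ℂ) : ℂ :=
  ∏' p : Nat.Primes, if p ∈ S then 1 else
    ∏ j, (1 - a p j * ((p : ℕ) : ℂ) ^ (-s) + ((p : ℕ) : ℂ) * (((p : ℕ) : ℂ) ^ (-s)) ^ 2)⁻¹

/-- `P(x) = ∏_{p ≤ x, p ∉ S} #A(𝔽_p) / p^d = ∏_{p ≤ x, p ∉ S} ∏_j (p + 1 - a_{p,j}) / p`. -/
noncomputable def pointProduct (a : Nat.Primes → Fin d → ℝ) (S : Finset Nat.Primes) (x : ℝ) : ℝ :=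
  ∏ᶠ p ∈ {p : Nat.Primes | p ∉ S ∧ ((p : ℕ) : ℝ) ≤ x},
    ∏ j, ((((p : ℕ) : ℝ) + 1 - a p j) / ((p : ℕ) : ℝ))

/-- The second order term `Q(x) = ∑_{√x < p ≤ x, p ∉ S} ∑_j (a_{p,j}² - 2p) / (2p²)`. -/
noncomputable def secondOrder (a : Nat.Primes → Fin d → ℝ) (S : Finset Nat.Primes) (x : ℝ) : ℝ :=
  ∑ᶠ p ∈ {p : Nat.Primes | p ∉ S ∧ √x < ((p : ℕ) : ℝ) ∧ ((p : ℕ) : ℝ) ≤ x},
    ∑ j, (a p j ^ 2 - 2 * ((p : ℕ) : ℝ)) / (2 * ((p : ℕ) : ℝ) ^ 2)

/-- `F` is an analytic continuation of `L(A, s)` to a neighbourhood of the real half line `s > 1`. -/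
def ContinuesAlongReals (a : Nat.Primes → Fin d → ℝ) (S : Finset Nat.Primes) (F : ℂ → ℂ) : Prop :=
  (∀ s : ℝ, 1 < s → AnalyticAt ℂ F s) ∧ ∀ s : ℝ, 3 / 2 < s → F s = LFun a S s

/-- `F` is an analytic continuation of `L(A, s)` to the half plane `Re s > 1`, without zeros. -/
def ContinuesWithoutZeros (a : Nat.Primes → Fin d → ℝ) (S : Finset Nat.Primes) (F : ℂ → ℂ) : Prop :=
  DifferentiableOn ℂ F {s : ℂ | 1 < s.re} ∧ (∀ s : ℂ, 1 < s.re → F s ≠ 0) ∧
    ∀ s : ℂ, 3 / 2 < s.re → F s = LFun a S s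

/-- Number of affine points modulo `p` of the elliptic curve `y² = x³ + a x + b`. -/
noncomputable def affineCount (a b : ℤ) (p : ℕ) : ℕ :=
  Nat.card {q : ZMod p × ZMod p // q.2 ^ 2 = q.1 ^ 3 + (a : ZMod p) * q.1 + (b : ZMod p)}

theorem L_eq (a : Nat.Primes → Fin d → ℝ) (S : Finset Nat.Primes) (h : WeilBound a S) {s : ℂ}
    (hs : 3 / 2 < s.re) :
    Pool.Agent.W263.EP.LF Pool.Agent.W263.EP.sysQ (S : Set Nat.Primes)
      (Pool.Agent.W263.EP.abTr a) s = LFun a S s := by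
  classical
  unfold Pool.Agent.W263.EP.LF LFun
  refine tprod_congr fun (p : Nat.Primes) => ?_
  by_cases hp : p ∈ S
  · exact (if_pos (show p ∈ (S : Set Nat.Primes) from hp)).trans (if_pos hp).symm
  · refine (if_neg (show p ∉ (S : Set Nat.Primes) from hp)).trans (Eq.trans ?_ (if_neg hp).symm)
    exact Pool.Agent.W263.EP.ab_factor a (h p hp) (by linarith)

theorem P_eq (a : Nat.Primes → Fin d → ℝ) (S : Finset Nat.Primes) (h : WeilBound a S) (x : ℝ) :
    Pool.Agent.W263.EP.PP Pool.Agent.W263.EP.sysQ (S : Set Nat.Primes)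
      (Pool.Agent.W263.EP.abTr a) 1 x = pointProduct a S x := by
  unfold Pool.Agent.W263.EP.PP pointProduct
  refine finprod_mem_congr rfl fun p hp => ?_
  exact Pool.Agent.W263.EP.ab_central a (h p hp.1)

theorem term_eq (a : Nat.Primes → Fin d → ℝ) (p : Nat.Primes)
    (h : ∀ j, |a p j| ≤ 2 * √((p : ℕ) : ℝ)) :
    Pool.Agent.W263.EP.abTr a p 2 * ((p : ℕ) : ℝ) ^ (-((1 : ℝ) + 1)) / 2 =
      ∑ j, (a p j ^ 2 - 2 * ((p : ℕ) : ℝ)) / (2 * ((p : ℕ) : ℝ) ^ 2) := by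
  have hp0 : (0 : ℝ) < ((p : ℕ) : ℝ) := by exact_mod_cast p.2.pos
  have e1 : ((p : ℕ) : ℝ) ^ (-((1 : ℝ) + 1)) = 1 / ((p : ℕ) : ℝ) ^ 2 := by
    have e2 : (-((1 : ℝ) + 1)) = -((2 : ℕ) : ℝ) := by norm_num
    rw [e2, Real.rpow_neg (Nat.cast_nonneg _), Real.rpow_natCast, one_div]
  rw [e1]
  unfold Pool.Agent.W263.EP.abTr
  rw [Finset.sum_mul, Finset.sum_div]
  refine Finset.sum_congr rfl fun j _ => ?_
  rw [Pool.Agent.W263.EP.sm_two (Pool.Agent.W263.EP.sq_le (h j))]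
  field_simp

theorem PS_eq (a : Nat.Primes → Fin d → ℝ) (S : Finset Nat.Primes) (h : WeilBound a S) (x : ℝ) :
    Pool.Agent.W263.EP.PS Pool.Agent.W263.EP.sysQ (S : Set Nat.Primes)
      (Pool.Agent.W263.EP.abTr a) 1 x = pointProduct a S x * Real.exp (secondOrder a S x) := by
  unfold Pool.Agent.W263.EP.PS
  rw [P_eq a S h]
  congr 2
  unfold secondOrder
  exact finsum_mem_congr rfl fun (p : Nat.Primes) hp => term_eq a p (h p hp.1)

/-- **The leading value of `L(A, s)` and the numbers of points.**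

Part A.  Let `A` be an abelian variety over `ℚ`, or any system of numbers `a_{p,j}` with the Weil
bound, let `r ≥ 0` be an integer and `Λ > 0`.  No continuation of `L(A, s)` is assumed.  The following
are equivalent (`γ` is Euler's constant).

1. `P(x) exp(Q(x)) / (log x)^r → e^{rγ} / Λ` as `x → ∞`.
2. `L(A, s)` has an analytic continuation to a neighbourhood of the real half line `s > 1`,
`(s - 1)^{-r} L(A, s) → Λ` as `s → 1⁺`, and for every `ε > 0` there is a `δ > 0` such that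
`P(y) ≤ (1 + ε) P(x)` for all large `x` and `x ≤ y ≤ x^{1+δ}`.
3. `L(A, s)` has an analytic continuation to a neighbourhood of the real half line `s > 1`, without
real zeros `s > 1`, `(s - 1)^{-r} L(A, s) → Λ` as `s → 1⁺`, and for every `ε > 0` there is a `δ > 0`
such that `P(x) ≤ (1 + ε) P(y)` for all large `x` and `x ≤ y ≤ x^{1+δ}`.
4. `L(A, s)` has an analytic continuation to the half plane `Re s > 1`, without zeros,
`(s - 1)^{-r} L(A, s) → Λ` as `s → 1⁺`, and both inequalities hold.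

Part B.  If `Q(x)` converges to `-κ`, then 1 is equivalent to `P(x) / (log x)^r → e^{rγ+κ} / Λ`.

Part C.  The bound in Part A holds for all products `A = E_1 × ⋯ × E_d` of elliptic curves
`y² = x³ + A_j x + B_j` over `ℚ`, `a_{p,j} = p - #{affine points of E_j mod p}`, if `S` contains `2`,
`3` and the prime divisors of the discriminants. -/
theorem result :
    (∀ (d : ℕ) (a : Nat.Primes → Fin d → ℝ) (S : Finset Nat.Primes) (_ : WeilBound a S)
      (r : ℕ) (Λ : ℝ) (_ : 0 < Λ),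
      List.TFAE [
        Tendsto (fun x : ℝ => pointProduct a S x * Real.exp (secondOrder a S x) /
          (Real.log x) ^ r) atTop (𝓝 (Real.exp (r * Real.eulerMascheroniConstant) / Λ)),
        (∃ F : ℂ → ℂ, ContinuesAlongReals a S F ∧
          Tendsto (fun s : ℝ => F s / ((s : ℂ) - 1) ^ r) (𝓝[>] 1) (𝓝 (Λ : ℂ))) ∧
          ∀ ε : ℝ, 0 < ε → ∃ δ : ℝ, 0 < δ ∧ ∀ᶠ x : ℝ in atTop, ∀ y, x ≤ y → y ≤ x ^ (1 + δ) →
            pointProduct a S y ≤ (1 + ε) * pointProduct a S x,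
        (∃ F : ℂ → ℂ, ContinuesAlongReals a S F ∧
          Tendsto (fun s : ℝ => F s / ((s : ℂ) - 1) ^ r) (𝓝[>] 1) (𝓝 (Λ : ℂ)) ∧
          ∀ s : ℝ, 1 < s → F s ≠ 0) ∧
          ∀ ε : ℝ, 0 < ε → ∃ δ : ℝ, 0 < δ ∧ ∀ᶠ x : ℝ in atTop, ∀ y, x ≤ y → y ≤ x ^ (1 + δ) →
            pointProduct a S x ≤ (1 + ε) * pointProduct a S y,
        (∃ F : ℂ → ℂ, ContinuesWithoutZeros a S F ∧
          Tendsto (fun s : ℝ => F s / ((s : ℂ) - 1) ^ r) (𝓝[>] 1) (𝓝 (Λ : ℂ))) ∧
          ∀ ε : ℝ, 0 < ε → ∃ δ : ℝ, 0 < δ ∧ ∀ᶠ x : ℝ in atTop, ∀ y, x ≤ y → y ≤ x ^ (1 + δ) →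
            pointProduct a S y ≤ (1 + ε) * pointProduct a S x ∧
            pointProduct a S x ≤ (1 + ε) * pointProduct a S y]) ∧
    (∀ (d : ℕ) (a : Nat.Primes → Fin d → ℝ) (S : Finset Nat.Primes) (r : ℕ) (Λ κ : ℝ) (_ : 0 < Λ)
      (_ : Tendsto (secondOrder a S) atTop (𝓝 (-κ))),
      Tendsto (fun x : ℝ => pointProduct a S x * Real.exp (secondOrder a S x) /
        (Real.log x) ^ r) atTop (𝓝 (Real.exp (r * Real.eulerMascheroniConstant) / Λ)) ↔
      Tendsto (fun x : ℝ => pointProduct a S x / (Real.log x) ^ r) atTop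
        (𝓝 (Real.exp (r * Real.eulerMascheroniConstant + κ) / Λ))) ∧
    (∀ (d : ℕ) (A B : Fin d → ℤ) (S : Finset Nat.Primes)
      (_ : ∀ p : Nat.Primes, p ∉ S → 5 ≤ (p : ℕ) ∧
        ∀ j, ¬ (((p : ℕ) : ℤ) ∣ 2 * (-4 * A j ^ 3 - 27 * B j ^ 2))),
      WeilBound (fun p j => ((p : ℕ) : ℝ) - affineCount (A j) (B j) p) S) := by
  refine ⟨?_, ?_, ?_⟩
  · intro d a S h r Λ hΛ
    have E := Pool.Agent.W263.EP.ab_tdata a S h
    have key := Pool.Agent.W263.EP.lead_tfae E Pool.Agent.W263.EP.slow_sysQ r hΛ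
    have e1 : ((1 : ℝ) + 1) / 2 = 1 := by norm_num
    have e2 : ((1 : ℝ) + 2) / 2 = 3 / 2 := by norm_num
    have hC : ∀ F : ℂ → ℂ, Pool.Agent.W263.EP.IsCont Pool.Agent.W263.EP.sysQ (S : Set Nat.Primes)
        (Pool.Agent.W263.EP.abTr a) 1 F ↔ ContinuesAlongReals a S F := by
      intro F
      unfold Pool.Agent.W263.EP.IsCont ContinuesAlongReals
      rw [e1, e2]
      refine and_congr_right fun _ => forall_congr' fun s => forall_congr' fun hs => ?_
      rw [L_eq a S h (by simpa using hs)]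
    have hFull : ∀ F : ℂ → ℂ, Pool.Agent.W263.EP.IsFull Pool.Agent.W263.EP.sysQ
        (S : Set Nat.Primes) (Pool.Agent.W263.EP.abTr a) 1 F ↔ ContinuesWithoutZeros a S F := by
      intro F
      unfold Pool.Agent.W263.EP.IsFull ContinuesWithoutZeros
      rw [e1, e2]
      refine and_congr_right fun _ => and_congr_right fun _ => forall_congr' fun s =>
        forall_congr' fun hs => ?_
      rw [L_eq a S h hs]
    simp only [hC, hFull, e1, Complex.ofReal_one, P_eq a S h, PS_eq a S h] at key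
    exact key
  · intro d a S r Λ κ hΛ hQ
    have h1 : Tendsto (fun x => Real.exp (secondOrder a S x)) atTop (𝓝 (Real.exp (-κ))) := hQ.rexp
    constructor
    · intro h
      have h2 := h.div h1 (Real.exp_pos _).ne'
      have e1 : Real.exp (r * Real.eulerMascheroniConstant) / Λ / Real.exp (-κ) =
          Real.exp (r * Real.eulerMascheroniConstant + κ) / Λ := by
        rw [Real.exp_add, Real.exp_neg]
        field_simp
      rw [e1] at h2
      refine h2.congr fun x => ?_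
      have := (Real.exp_pos (secondOrder a S x)).ne'
      simp only [Pi.div_apply]
      field_simp
    · intro h
      have h2 := h.mul h1
      have e1 : Real.exp (r * Real.eulerMascheroniConstant + κ) / Λ * Real.exp (-κ) =
          Real.exp (r * Real.eulerMascheroniConstant) / Λ := by
        rw [Real.exp_add, Real.exp_neg]
        field_simp
      rw [e1] at h2
      refine h2.congr fun x => ?_
      ring
  · intro d A B S hS p hp j
    obtain ⟨h5, h6⟩ := hS p hp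
    exact Pool.Agent.W263.BSD.hasse (p := (p : ℕ)) ⟨p.2, h6 j⟩ h5

end Pool.Agent.Results.MP_dfae13_nt.LeadingValue
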