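import Pool.Agent.W524.AV.Main

/-!
# The leading value of `L(A, s)` in a sector at `s = 1` and Gaussian averages of the numbers of points

`A` is an abelian variety of dimension `d` over `ℚ` and `S` is a finite set of primes which contains
the primes of bad reduction. By Weil's theorem `P_p(T) = ∏_{j ≤ d} (1 - a_{p,j} T + p T²)` with real
numbers `|a_{p,j}| ≤ 2√p` for every prime `p ∉ S`. So `#A(𝔽_p) = P_p(1) = ∏_j (p + 1 - a_{p,j})`,
`L(A, s) = ∏_{p ∉ S} ∏_j (1 - a_{p,j} p^{-s} + p^{1-2s})⁻¹`, and the Birch and Swinnerton-Dyer product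
is `P(x) = ∏_{p ≤ x, p ∉ S} #A(𝔽_p) / p^d`. The theorem uses nothing else about `A`, and no
continuation of `L(A, s)` is assumed.
-/

set_option autoImplicit false

namespace Pool.Agent.Results.MP_dfae13_nt.SectorLeadingValue

open MeasureTheory Filter Topology

noncomputable section

variable {d : ℕ}

/-- The Weil bound for the numbers `a_{p,j}`, `p ∉ S`. -/
def WeilBound (a : Nat.Primes → Fin d → ℝ) (S : Finset Nat.Primes) : Prop :=
  ∀ p, p ∉ S → ∀ j, |a p j| ≤ 2 * √((p : ℕ) : ℝ)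

open Classical in
/-- `L(A, s) = ∏_{p ∉ S} P_p(p^{-s})⁻¹`. -/
def LFun (a : Nat.Primes → Fin d → ℝ) (S : Finset Nat.Primes) (s : ℂ) : ℂ :=
  ∏' p : Nat.Primes, if p ∈ S then 1 else
    ∏ j, (1 - a p j * ((p : ℕ) : ℂ) ^ (-s) + ((p : ℕ) : ℂ) * (((p : ℕ) : ℂ) ^ (-s)) ^ 2)⁻¹

/-- `P(x) = ∏_{p ≤ x, p ∉ S} #A(𝔽_p) / p^d = ∏_{p ≤ x, p ∉ S} ∏_j (p + 1 - a_{p,j}) / p`. -/
def pointProduct (a : Nat.Primes → Fin d → ℝ) (S : Finset Nat.Primes) (x : ℝ) : ℝ :=
  ∏ᶠ p ∈ {p : Nat.Primes | p ∉ S ∧ ((p : ℕ) : ℝ) ≤ x},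
    ∏ j, ((((p : ℕ) : ℝ) + 1 - a p j) / ((p : ℕ) : ℝ))

/-- The second order term `Q(x) = ∑_{√x < p ≤ x, p ∉ S} ∑_j (a_{p,j}² - 2p) / (2p²)`. -/
def secondOrder (a : Nat.Primes → Fin d → ℝ) (S : Finset Nat.Primes) (x : ℝ) : ℝ :=
  ∑ᶠ p ∈ {p : Nat.Primes | p ∉ S ∧ √x < ((p : ℕ) : ℝ) ∧ ((p : ℕ) : ℝ) ≤ x},
    ∑ j, (a p j ^ 2 - 2 * ((p : ℕ) : ℝ)) / (2 * ((p : ℕ) : ℝ) ^ 2)

/-- The average of `f` against the density `e^{-t²/4v} / √(πv)` on `t > 0`. -/
def gaussAvg (f : ℝ → ℝ) (v : ℝ) : ℝ :=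
  ∫ t in Set.Ioi (0 : ℝ), f t * (Real.exp (-(t ^ 2 / (4 * v))) / Real.sqrt (Real.pi * v))

/-- `A_k`: the `k`-fold iterated average of `t ↦ log (P(e^t) exp Q(e^t))`. -/
def average (a : Nat.Primes → Fin d → ℝ) (S : Finset Nat.Primes) (k : ℕ) : ℝ → ℝ :=
  gaussAvg^[k] fun t => Real.log (pointProduct a S (Real.exp t) * Real.exp (secondOrder a S (Real.exp t)))

/-- `A_k(v) = 2^{-k} m (log v + γ) - log Λ + o(1)` as `v → ∞`. -/
def AverageLaw (a : Nat.Primes → Fin d → ℝ) (S : Finset Nat.Primes) (m : ℕ) (Λ : ℝ) (k : ℕ) : Prop :=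
  Tendsto (fun v => average a S k v -
    (m / 2 ^ k : ℝ) * (Real.log v + Real.eulerMascheroniConstant)) atTop (𝓝 (-Real.log Λ))

/-- The open sector with vertex `1`: `Re s > 1`, `|Im s| < θ (Re s - 1)`. -/
def sector (θ : ℝ) : Set ℂ := {s | 1 < s.re ∧ |s.im| < θ * (s.re - 1)}

/-- `L(A, s)` has an analytic continuation `F` without zeros to the sector `θ`, and
`F(s) / (s - 1)^m → Λ` as `s → 1` in the sector `θ'`. -/
def ContinuesWithValue (a : Nat.Primes → Fin d → ℝ) (S : Finset Nat.Primes) (m : ℕ) (Λ : ℝ)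
    (θ θ' : ℝ) : Prop :=
  ∃ F : ℂ → ℂ, (∀ s ∈ sector θ, AnalyticAt ℂ F s ∧ F s ≠ 0) ∧
    (∀ s : ℂ, 2 < s.re → F s = LFun a S s) ∧
    Tendsto (fun s => F s / (s - 1) ^ m) (𝓝[sector θ'] 1) (𝓝 (Λ : ℂ))

/-- Number of affine points modulo `p` of the elliptic curve `y² = x³ + a x + b`. -/
def affineCount (a b : ℤ) (p : ℕ) : ℕ :=
  Nat.card {q : ZMod p × ZMod p // q.2 ^ 2 = q.1 ^ 3 + (a : ZMod p) * q.1 + (b : ZMod p)}

/-- **The leading value of `L(A, s)` and Gaussian averages of the numbers of points.**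

Part A. Let `A` be an abelian variety over `ℚ`, or any system of numbers `a_{p,j}` with the Weil
bound, `m ≥ 0` an integer and `Λ > 0`. Equivalent are: the law `A_k(v) = 2^{-k} m (log v + γ) - log Λ + o(1)`
for some `k ≥ 1`; the law for all large `k`; `L(A, s)` has an analytic continuation without zeros to some
sector with vertex `1`, and `L(A, s) / (s - 1)^m → Λ` as `s → 1` in this sector.

Part B. The relation between `k` and the opening angle of the sector.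

Part C. The Weil bound holds for all products of elliptic curves `y² = x³ + A_j x + B_j` over `ℚ`,
`a_{p,j} = p - #{affine points mod p}`, if `S` contains `2`, `3` and the primes dividing the
discriminants. -/
theorem result :
    (∀ (d : ℕ) (a : Nat.Primes → Fin d → ℝ) (S : Finset Nat.Primes) (_ : WeilBound a S)
      (m : ℕ) (Λ : ℝ) (_ : 0 < Λ),
      List.TFAE [
        ∃ k : ℕ, 1 ≤ k ∧ AverageLaw a S m Λ k,
        ∃ k₀ : ℕ, 1 ≤ k₀ ∧ ∀ k : ℕ, k₀ ≤ k → AverageLaw a S m Λ k,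
        ∃ θ : ℝ, 0 < θ ∧ ContinuesWithValue a S m Λ θ θ]) ∧
    (∀ (d : ℕ) (a : Nat.Primes → Fin d → ℝ) (S : Finset Nat.Primes) (_ : WeilBound a S)
      (m : ℕ) (Λ : ℝ) (_ : 0 < Λ) (k : ℕ) (_ : 1 ≤ k),
      (AverageLaw a S m Λ k →
        ContinuesWithValue a S m Λ (Real.tan (Real.pi / 2 ^ (k + 1))) (Real.tan (Real.pi / 2 ^ (k + 2)))) ∧
      (ContinuesWithValue a S m Λ (Real.tan (Real.pi / 2 ^ (k + 1))) (Real.tan (Real.pi / 2 ^ (k + 1))) →
        ∀ j : ℕ, k + 2 ≤ j → AverageLaw a S m Λ j)) ∧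
    (∀ (d : ℕ) (A B : Fin d → ℤ) (S : Finset Nat.Primes)
      (_ : ∀ p : Nat.Primes, p ∉ S → 5 ≤ (p : ℕ) ∧
        ∀ j, ¬ (((p : ℕ) : ℤ) ∣ 2 * (-4 * A j ^ 3 - 27 * B j ^ 2))),
      WeilBound (fun p j => ((p : ℕ) : ℝ) - affineCount (A j) (B j) p) S) := by
  have hav : ∀ (d : ℕ) (a : Nat.Primes → Fin d → ℝ) (S : Finset Nat.Primes), WeilBound a S →
      ∀ k, average a S k = W334.BSD.gaussAvg^[k] (W524.LC.cor (W524.AV.nn d S) (W524.AV.zz a S)) := by
    intro d a S h k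
    have h1 : (fun t => Real.log (pointProduct a S (Real.exp t) *
        Real.exp (secondOrder a S (Real.exp t)))) =
        W524.LC.cor (W524.AV.nn d S) (W524.AV.zz a S) := funext fun t => W524.AV.log_cor h t
    unfold average
    rw [h1]
    rfl
  refine ⟨?_, ?_, ?_⟩
  · intro d a S h m Λ hΛ
    obtain ⟨C, hC⟩ := W524.LC.tame_cor (W524.AV.ep h) (W524.AV.mert d S)
    have hE0 := W524.LC.cor_lim (W524.AV.ep h) (W524.AV.mert d S)
    have key := W524.AV.tfae hC (W524.AV.ep h).tame hE0 (Lf := LFun a S)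
      (fun q hq => W524.AV.LFun_eq h hq) m hΛ
    unfold AverageLaw
    simp only [hav d a S h]
    exact key
  · intro d a S h m Λ hΛ k hk
    obtain ⟨C, hC⟩ := W524.LC.tame_cor (W524.AV.ep h) (W524.AV.mert d S)
    have hE0 := W524.LC.cor_lim (W524.AV.ep h) (W524.AV.mert d S)
    unfold AverageLaw
    simp only [hav d a S h]
    exact ⟨fun h1 => W524.AV.fwd hC (W524.AV.ep h).tame hE0 (Lf := LFun a S)
      (fun q hq => W524.AV.LFun_eq h hq) m hΛ hk h1,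
      fun h1 => W524.AV.bwd hC (W524.AV.ep h).tame hE0 (Lf := LFun a S)
      (fun q hq => W524.AV.LFun_eq h hq) m hΛ hk h1⟩
  · intro d A B S hS p hp j
    obtain ⟨h5, h6⟩ := hS p hp
    exact W263.BSD.hasse (p := (p : ℕ)) ⟨p.2, h6 j⟩ h5

end

end Pool.Agent.Results.MP_dfae13_nt.SectorLeadingValue
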