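import Mathlib
import Pool.Agent.W262.SQ.Fam2
import Pool.Agent.W262.SH.DefC
import Pool.Agent.W756.SH.Twi
import Pool.Agent.W509.SH.Lat
import Pool.Agent.W509.SH.Phia2
import Pool.Agent.W991.SH.Rk2
import Pool.Agent.W352.SH.Grp

/-!
# Ranks and 2-parts of `Ш` of twisted powers `A_t`: all exponential moments

Let `E : y² = x (x - A) (x - B)`, let `D i (t) = b i * ∏_{g j = i} P j (t)` for `i < l`, the `P j`
polynomials with integer coefficients of degree one or two, irreducible over `ℚ` and pairwise not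
proportional, let `ρ` be a homomorphism of `{±1}^l` to `GL_d(ℤ)`, and let `A_t` be the twist of
`E ^ d` by the composition of `ρ` with `Gal(ℚ̄/ℚ) → Gal(ℚ(√D_1(t), ..., √D_l(t))/ℚ) → {±1}^l`, an
abelian variety of dimension `d` over `ℚ`. Then the average over the integers `t` of an interval
`(N, N + M]` with `|N| ≤ M ^ L` of `2 ^ (e * (rank A_t(ℚ) + r t))` is bounded for every `e` and `L`,
where `Ш(A_t/ℚ)` contains `(ℤ/2^(l+1))^(r t)`.
-/

namespace Pool.Agent.Results.MP_dfae13_nt.TwistedPowerMoments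

open Finset Polynomial

open Pool.Agent.W262.SH (E Rep ShaAb HasZ rkS AQ)

/-- `D i (t) = b i * ∏ P j (t)`, the product over the `j` with `g j = i` -/
def D {l s : ℕ} (b : Fin l → ℤ) (g : Fin s → Fin l) (P : Fin s → ℤ[X]) (t : ℤ) (i : Fin l) : ℤ :=
  b i * ∏ j ∈ univ.filter (fun j => g j = i), (P j).eval t

theorem D_eq {l s : ℕ} (b : Fin l → ℤ) (g : Fin s → Fin l) (P : Fin s → ℤ[X]) :
    Pool.Agent.W262.SQ.Dp b g P = D b g P := rfl

/-- The averages of `2 ^ (e * (rank A_t(ℚ) + r t))` in short intervals are bounded. -/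
theorem result (l s d : ℕ) (hd : 0 < d) (ρ : Rep l d) (A B : ℤ) (b : Fin l → ℤ)
    (g : Fin s → Fin l) (P : Fin s → ℤ[X])
    (hA : A ≠ 0) (hB : B ≠ 0) (hAB : A ≠ B) (hb : ∀ i, b i ≠ 0)
    (hdeg : ∀ i, (P i).natDegree = 1 ∨ (P i).natDegree = 2)
    (hirr : ∀ i, Irreducible ((P i).map (Int.castRingHom ℚ)))
    (hne : ∀ i j, i ≠ j →
      ¬ Associated ((P i).map (Int.castRingHom ℚ)) ((P j).map (Int.castRingHom ℚ))) (e L : ℕ) :
    ∃ C : ℝ, ∀ r : ℤ → ℕ,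
      (∀ t, (∀ i, D b g P t i ≠ 0) →
        HasZ (ShaAb (E A B) (D b g P t) ρ) (2 ^ (l + 1)) (r t)) →
      ∀ (N : ℤ) (M : ℕ), 1 ≤ M → |N| ≤ (M : ℤ) ^ L →
      ∑ t ∈ (Ioc N (N + M)).filter (fun t : ℤ => ∀ i, D b g P t i ≠ 0),
        (2 : ℝ) ^ (e * (rkS (AQ (E A B) (D b g P t) ρ) + r t)) ≤ C * M := by
  have hT : Pool.Agent.W262.SH.TWI := Pool.Agent.W756.SH.Twi.twi
  have hP : Pool.Agent.W262.SH.PHIA2 := Pool.Agent.W509.SH.phia2 hT
  have hR : Pool.Agent.W262.SH.RKA2 := Pool.Agent.W991.SH.rka2 hT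
  obtain ⟨C, -, hC⟩ := Pool.Agent.W262.SQ.sA (max e 1 * d)
    (Nat.one_le_iff_ne_zero.2 (Nat.mul_ne_zero (by omega) (by omega))) A B b g P
    ⟨hdeg, hirr, hne⟩ hA hB hAB hb L
  refine ⟨d * (2 ^ l * C), fun r hr N M hM hN => ?_⟩
  have h := Pool.Agent.W262.SQ.sumD Pool.Agent.W509.SH.lat hP Pool.Agent.W352.SH.grp hR hd
    ((Ioc N (N + M)).filter (fun t : ℤ => ∀ i, D b g P t i ≠ 0)) (fun _ => A) (fun _ => B)
    (fun t => D b g P t) ρ (C * M) (max e 1) r (fun _ _ => hA) (fun _ _ => hB) (fun _ _ => hAB)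
    (fun t ht => (mem_filter.1 ht).2)
    (fun t ht => (Pool.Agent.W262.SH.has_shaAb _ _ _ _ _).1 (hr t (mem_filter.1 ht).2))
    (fun s => by
      have h1 := hC (N, M) ⟨hM, hN⟩ s
      rw [D_eq] at h1
      convert h1)
  rw [← mul_assoc (2 ^ l : ℝ), ← mul_assoc] at h
  refine le_trans (sum_le_sum fun t _ => ?_) h
  exact pow_le_pow_right₀ (by norm_num) (Nat.mul_le_mul_right _ (le_max_left e 1))

end Pool.Agent.Results.MP_dfae13_nt.TwistedPowerMoments
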